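import Mathlib

namespace Pool.Agent.Results.MP_415bd8_co.No

open Finset Sum

def Proper {V : Type} (G : SimpleGraph V) (c : Sym2 V → ℕ) : Prop :=
  ∀ u v w, G.Adj u v → G.Adj u w → v ≠ w → c s(u, v) ≠ c s(u, w)

noncomputable def ncol {V : Type} (G : SimpleGraph V) (c : Sym2 V → ℕ) : ℕ := (c '' G.edgeSet).ncard

noncomputable def chi {V : Type} (G : SimpleGraph V) : ℕ := sInf {k | ∃ c, Proper G c ∧ ncol G c = k}

def Rainbow {V W : Type} (H : SimpleGraph W) (G : SimpleGraph V) (c : Sym2 V → ℕ) : Prop :=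
  ∃ f : H.Copy G, Set.InjOn (fun e => c (e.map f)) H.edgeSet

abbrev V (m : ℕ) := Fin 3 × (Fin 3 ⊕ Fin m ⊕ Fin (m + 5))

abbrev W (m : ℕ) := Fin 3 ⊕ Fin m ⊕ Fin 3

def r {m : ℕ} : V m → V m → Prop
  | (i, inl a), (j, inl b) => a = 0 ∧ b = 1 ∧ i = j
  | (i, inl a), (j, inr (inl _)) => a = 0 ∧ i = j ∨ a = 2 ∧ i ≠ j
  | (i, inr (inr _)), (j, inl b) => b = 1 ∧ i = j
  | _, _ => False

def G (m : ℕ) : SimpleGraph (V m) where
  Adj u v := r u v ∨ r v u
  symm := ⟨fun _ _ => Or.symm⟩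
  loopless := ⟨by rintro ⟨i, a | a | a⟩ <;> simp [r]; grind⟩

def q {m : ℕ} : W m → W m → Prop
  | inl a, inl b => a = 0 ∧ b = 1
  | inl a, inr (inl t) => a = 0 ∨ a = 2 ∧ t.1 = 0
  | inr (inr _), inl b => b = 1
  | _, _ => False

def H (m : ℕ) : SimpleGraph (W m) where
  Adj u v := q u v ∨ q v u
  symm := ⟨fun _ _ => Or.symm⟩
  loopless := ⟨by rintro (a | a | a) <;> simp [q]; grind⟩

def c1 {m : ℕ} : V m → V m → ℕ
  | (_, inl a), (_, inl _) => if a = 0 then 2 * m else 0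
  | (i, inl a), (j, inr (inl t)) => if a = 0 then t + 1 else if i = j + 1 then m + t else t
  | (_, inr (inr s)), (_, inl _) => s
  | _, _ => 0

def c2 {m : ℕ} : V m → V m → ℕ
  | (i, inl a), (_, inl _) => if a = 0 then 3 * m + i else 0
  | (i, inl a), (j, inr (inl t)) => j + 3 * if a = 0 then t.1 else if i = j + 1 then t + 1 else
      if t + 1 = m then 0 else t + 2
  | (_, inr (inr s)), (_, inl _) => 3 * (m + 1 + s)
  | _, _ => 0

def sy {V : Type} (c : V → V → ℕ) : Sym2 V → ℕ := Sym2.lift ⟨fun u v => c u v + c v u, fun _ _ => add_comm _ _⟩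

theorem p1 (m : ℕ) (hm : 5 ≤ m) : Proper (G m) (sy c1) := by
  rintro ⟨i, a | a | a⟩ ⟨j, b | b | b⟩ ⟨k, c | c | c⟩ <;> simp [G, r, sy, c1] <;> grind

theorem p2 (m : ℕ) (hm : 5 ≤ m) : Proper (G m) (sy c2) := by
  rintro ⟨i, a | a | a⟩ ⟨j, b | b | b⟩ ⟨k, c | c | c⟩ <;> simp [G, r, sy, c2] <;> grind

theorem chi_le (m : ℕ) (hm : 5 ≤ m) : chi (G m) ≤ 2 * m + 1 := by
  refine le_trans (b := ncol (G m) (sy c1)) (Nat.sInf_le ⟨_, p1 m hm, rfl⟩) ?_
  rw [← card_range (2 * m + 1), ← Set.ncard_coe_finset]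
  refine Set.ncard_le_ncard ?_
  rintro _ ⟨⟨⟨i, a | a | a⟩, ⟨j, b | b | b⟩⟩, h, rfl⟩ <;> simp [G, r, sy, c1] at h ⊢ <;> grind

theorem big {m : ℕ} (u : V m) (f : Fin 4 → V m) (hf : Function.Injective f)
    (h : ∀ i, (G m).Adj u (f i)) : ∃ i a, u = (i, inl a) := by
  have c (s : Finset (V m)) (hs : ∀ v, (G m).Adj u v → v ∈ s) : 4 ≤ #s := by
    simpa using card_le_card_of_injOn (s := univ) f (fun i _ => hs _ (h i)) hf.injOn
  obtain ⟨i, a | a | a⟩ := u
  · exact ⟨i, a, rfl⟩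
  · refine absurd ((c {(i, inl 0), (i + 1, inl 2), (i + 2, inl 2)} ?_).trans card_le_three) (by omega)
    rintro ⟨j, b | b | b⟩ <;> simp [G, r]
    grind
  · refine absurd (c {(i, inl 1)} ?_) (by simp)
    rintro ⟨j, b | b | b⟩ <;> simp [G, r]
    grind

theorem notR (m : ℕ) (hm : 5 ≤ m) : ¬ Rainbow (H m) (G m) (sy c2) := by
  rintro ⟨f, hf⟩
  have A {u v} (h : (H m).Adj u v) : (G m).Adj (f u) (f v) := f.toHom.map_rel h
  have I {u v} (h : u ≠ v) : f u ≠ f v := f.injective.ne h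
  let z : Fin m := ⟨0, by omega⟩
  obtain ⟨i, a, h0⟩ := big (f (inl 0)) (fun t => f (inr (inl (t.castLE (by omega)))))
    (fun _ _ e => by simpa using f.injective e) fun _ => A (by simp [H, q])
  obtain ⟨j, b, h1⟩ := big (f (inl 1)) (fun t => f (Fin.cases (inl 0) (inr ∘ inr) t))
    (fun s t e => by
      have := f.injective e
      induction s using Fin.cases <;> induction t using Fin.cases <;> simp_all)
    fun t => A (by induction t using Fin.cases <;> simp [H, q])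
  have a1 := A (show (H m).Adj (inl 0) (inl 1) by simp [H, q])
  have a2 := A (show (H m).Adj (inr (inl z)) (inl 2) by simp [H, q, z])
  have a3 (t : Fin m) := A (show (H m).Adj (inl 0) (inr (inl t)) by simp [H, q])
  have n1 (t : Fin m) := I (show (inr (inl t) : W m) ≠ inl 1 by simp)
  have n2 := I (show (inl 2 : W m) ≠ inl 0 by simp)
  rw [h0, h1] at a1
  simp only [h0, h1] at a3 n1 n2
  obtain ⟨rfl, rfl, rfl⟩ : a = 0 ∧ b = 1 ∧ i = j := by
    refine a1.resolve_right ?_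
    rintro ⟨rfl, rfl, rfl⟩
    have a3 := a3 z
    have n1 := n1 z
    revert a2 a3 n1 n2
    rcases f (inr (inl z)) with ⟨k, c | c | c⟩ <;> rcases f (inl 2) with ⟨l, d | d | d⟩ <;>
      simp [G, r] <;> grind
  have g (t : Fin m) : ∃ s, f (inr (inl t)) = (i, inr (inl s)) := by
    have a3 := a3 t
    have n1 := n1 t
    revert a3 n1
    rcases f (inr (inl t)) with ⟨k, c | c | c⟩ <;> simp [G, r] <;> grind
  choose g hg using g
  have gs := Finite.surjective_of_injective (f := g) fun s t e => by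
    simpa using f.injective (show f (inr (inl s)) = f (inr (inl t)) by rw [hg, hg, e])
  obtain ⟨k, ki, h2⟩ : ∃ k, k ≠ i ∧ f (inl 2) = (k, inl 2) := by
    rw [hg] at a2
    revert a2 n2
    rcases f (inl 2) with ⟨k, c | c | c⟩ <;> simp [G, r] <;> grind
  have e1 := mt (hf (x₁ := s(inr (inl z), inl 2)) (x₂ := s(inl 0, inl 1)) (by simp [H, q, z])
    (by simp [H, q])) (by simp)
  have e2 (s : Fin m) : sy c2 s((i, inr (inl (g z))), (k, inl 2)) ≠
      sy c2 s((i, inl 0), (i, inr (inl s))) := by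
    obtain ⟨t, rfl⟩ := gs s
    simpa [hg, h0, h2] using mt (hf (x₁ := s(inr (inl z), inl 2)) (x₂ := s(inl 0, inr (inl t)))
      (by simp [H, q, z]) (by simp [H, q])) (by simp)
  simp [hg, h0, h1, h2, sy, c2] at e1 e2
  split_ifs at e1 e2
  · exact e2 ⟨g z + 1, by omega⟩ rfl
  · exact e2 z rfl
  · exact e2 ⟨g z + 2, by omega⟩ rfl

theorem pal (m : ℕ) (c : Sym2 (V m) → ℕ) (hc : Proper (G m) c) (h : ¬ Rainbow (H m) (G m) c)
    (i j : Fin 3) (ij : j ≠ i) (t : Fin m) : c s((j, inl 2), (i, inr (inl t))) ∈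
      univ.image fun o : Option (Fin m) => c s((i, inl 0), (i, o.elim (inl 1) (inr ∘ inl))) := by
  by_contra n
  set S := univ.image fun o : Option (Fin m) => c s((i, inl 0), (i, o.elim (inl 1) (inr ∘ inl)))
  set x := c s((j, inl 2), (i, inr (inl t)))
  let d (s : Fin (m + 5)) := c s((i, inl 1), (i, inr (inr s)))
  have di : Function.Injective d := fun s s' e => not_not.1 fun n =>
    hc _ _ _ (by simp [G, r]) (by simp [G, r]) (by simpa using n) e
  have k1 := card_le_card_of_injOn (s := univ.filter (d · ∈ insert x S)) (t := insert x S) d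
    (fun s hs => by simpa using hs) di.injOn
  have k2 := card_filter_add_card_filter_not (s := univ) (d · ∈ insert x S)
  have k3 : #S ≤ m + 1 := card_image_le.trans (by simp)
  have k4 := card_insert_le x S
  simp only [card_univ, Fintype.card_fin] at k2
  have k5 : 3 ≤ #(univ.filter (d · ∉ insert x S)) := by omega
  let p := orderEmbOfCardLe _ k5
  have hp (s : Fin 3) : d (p s) ∉ insert x S := (mem_filter.1 (orderEmbOfCardLe_mem _ k5 s)).2
  let σ := Equiv.swap t ⟨0, t.pos⟩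
  let f : W m → V m := Sum.elim ![(i, inl 0), (i, inl 1), (j, inl 2)]
    (Sum.elim (fun s => (i, inr (inl (σ s)))) fun s => (i, inr (inr (p s))))
  have z (s : Fin m) (h : s.1 = 0) : σ s = t := by
    rw [show s = ⟨0, t.pos⟩ from Fin.ext h, Equiv.swap_apply_right]
  have f3 (a : Fin 3) : a = 0 ∨ a = 1 ∨ a = 2 := by omega
  refine h ⟨⟨⟨f, ?_⟩, ?_⟩, ?_⟩
  · have (u v : W m) : q u v → r (f u) (f v) := by
      rcases u with a | a | a <;> rcases v with b | b | b <;> simp only [q, false_imp_iff]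
      · rintro ⟨rfl, rfl⟩
        simp [r, f]
      · rintro (rfl | ⟨rfl, -⟩) <;> simp [r, f, ij]
      · rintro rfl
        simp [r, f]
    exact fun {_ _} h => Or.imp (this _ _) (this _ _) h
  · rintro (a | a | a) (b | b | b) <;> (try rcases f3 a with rfl | rfl | rfl) <;>
      (try rcases f3 b with rfl | rfl | rfl) <;> simp [f]
  have E (e) (he : e ∈ (H m).edgeSet) : (∃ o : Option (Fin m),
      e = s(inl 0, o.elim (inl 1) (inr ∘ inl)) ∧
      c (e.map f) = c s((i, inl 0), (i, (o.map σ).elim (inl 1) (inr ∘ inl)))) ∨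
      (∃ s, e = s(inl 1, inr (inr s)) ∧ c (e.map f) = d (p s)) ∨
      e = s(inl 2, inr (inl ⟨0, t.pos⟩)) ∧ c (e.map f) = x := by
    obtain ⟨u, v, rfl, h⟩ : ∃ u v, e = s(u, v) ∧ q u v := by
      induction e using Sym2.ind with | h u v => ?_
      exact he.elim (fun h => ⟨u, v, rfl, h⟩) fun h => ⟨v, u, Sym2.eq_swap, h⟩
    rcases u with a | a | a <;> rcases v with b | b | b <;> simp only [q] at h
    · obtain ⟨rfl, rfl⟩ := h
      exact .inl ⟨none, rfl, rfl⟩
    · obtain rfl | ⟨rfl, h⟩ := h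
      · exact .inl ⟨some b, rfl, rfl⟩
      · exact .inr (.inr ⟨by rw [show b = ⟨0, t.pos⟩ from Fin.ext h], by simp [x, f, z b h]⟩)
    · subst h
      exact .inr (.inl ⟨a, Sym2.eq_swap, by rw [Sym2.eq_swap]; rfl⟩)
  have mS (o : Option (Fin m)) : c s((i, inl 0), (i, o.elim (inl 1) (inr ∘ inl))) ∈ S :=
    mem_image_of_mem _ (mem_univ o)
  intro e he e' he' h
  change c (e.map f) = c (e'.map f) at h
  simp only [mem_insert, not_or] at hp
  rcases E e he with ⟨o, e1, e2⟩ | ⟨o, e1, e2⟩ | ⟨e1, e2⟩ <;>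
    rcases E e' he' with ⟨o', e3, e4⟩ | ⟨o', e3, e4⟩ | ⟨e3, e4⟩ <;> rw [e2, e4] at h
  · obtain rfl : o = o' := not_not.1 fun n => hc _ _ _ (by cases o <;> simp [G, r])
      (by cases o' <;> simp [G, r]) (by cases o <;> cases o' <;> simp_all) h
    rw [e1, e3]
  · exact absurd (h ▸ mS _) (hp _).2
  · exact absurd (h ▸ mS _) n
  · exact absurd (h ▸ mS _) (hp _).2
  · rw [e1, e3, p.injective (di h)]
  · exact absurd h (hp _).1
  · exact absurd (h ▸ mS _) n
  · exact absurd h.symm (hp _).1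
  · rw [e1, e3]

theorem result (k : ℕ) : ∃ (V W : Type) (_ : Fintype V) (_ : Fintype W) (H : SimpleGraph W)
    (G : SimpleGraph V), (∀ c, Proper G c → ncol G c ≤ chi G + k → Rainbow H G c) ∧
      ∃ c, Proper G c ∧ ¬ Rainbow H G c := by
  obtain ⟨m, hm⟩ : ∃ m, m = k + 5 := ⟨_, rfl⟩
  refine ⟨V m, W m, inferInstance, inferInstance, H m, G m, fun c hc hk => not_not.1 fun h => ?_,
    _, p2 m (by omega), notR m (by omega)⟩
  let P (i : Fin 3) := univ.image fun o : Option (Fin m) =>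
    c s((i, inl 0), (i, o.elim (inl 1) (inr ∘ inl)))
  have a (i : Fin 3) (o : Option (Fin m)) : (G m).Adj (i, inl 0) (i, o.elim (inl 1) (inr ∘ inl)) := by
    cases o <;> simp [G, r]
  have h1 (i : Fin 3) : #(P i) = m + 1 := by
    rw [card_image_of_injective _ fun o o' e => not_not.1 fun n => hc _ _ _ (a i o) (a i o') ?_ e]
    · simp
    · cases o <;> cases o' <;> simp_all
  have h2 (j : Fin 3) : 2 * m ≤ #(P (j + 1) ∪ P (j + 2)) := by
    have n : j ≠ j + 1 ∧ j ≠ j + 2 ∧ j + 1 ≠ j + 2 := by omega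
    have := card_le_card_of_injOn (s := {j + 1, j + 2} ×ˢ univ) (t := P (j + 1) ∪ P (j + 2))
      (fun p : Fin 3 × Fin m => c s((j, inl 2), (p.1, inr (inl p.2)))) (fun p hp => ?_)
      fun p hp p' hp' e => not_not.1 fun n => hc _ _ _ ?_ ?_ ?_ e
    · simpa [n] using this
    · rcases (by simpa using hp : p.1 = j + 1 ∨ p.1 = j + 2) with e | e <;> simp only [e]
      exacts [mem_union_left _ (pal m c hc h _ _ n.1 _), mem_union_right _ (pal m c hc h _ _ n.2.1 _)]
    · simp [G, r] at hp ⊢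
      grind
    · simp [G, r] at hp' ⊢
      grind
    · simpa [Prod.ext_iff] using n
  have h3 : #(P 0 ∪ P 1 ∪ P 2) ≤ ncol (G m) c := by
    rw [← Set.ncard_coe_finset]
    refine Set.ncard_le_ncard fun x hx => ?_
    obtain ⟨i, o, rfl⟩ : ∃ i o, c s((i, inl 0), (i, Option.elim o (inl 1) (inr ∘ inl))) = x := by
      simp only [P, coe_union, coe_image, Set.mem_union, Set.mem_image] at hx
      grind
    exact ⟨_, a i o, rfl⟩
  have := chi_le m (by omega)
  have b0 : 2 * m ≤ #(P 1 ∪ P 2) := h2 0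
  have b1 : 2 * m ≤ #(P 2 ∪ P 0) := h2 1
  have b2 : 2 * m ≤ #(P 0 ∪ P 1) := h2 2
  have := card_union_add_card_inter (P 1) (P 2)
  have := card_union_add_card_inter (P 2) (P 0)
  have := card_union_add_card_inter (P 0 ∪ P 1) (P 2)
  rw [union_inter_distrib_right, inter_comm (P 0)] at this
  have := card_union_le (P 2 ∩ P 0) (P 1 ∩ P 2)
  have := h1 0
  have := h1 1
  have := h1 2
  omega

end Pool.Agent.Results.MP_415bd8_co.No
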